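import Pool.Agent.helper83.FI4B.Spec

/-! Row fi4b:BCV (MP_baa4d7_al): the elements which are not regular are covered by `iI - 1` subgroups of index `p`. -/

set_option autoImplicit false

namespace Pool.Agent.FI4B

open Pool.Agent.helper58.DC Pool.Agent.DI Pool.Agent.GR Pool.Agent.OB Pool.Agent.DR Pool.Agent.FI Pool.Agent.FI3 Pool.Agent.FI4

theorem BCV_ex (p : ℕ) (hp : p.Prime) {G : Type} [Group G] [Finite G] (D F : Subgroup G)
    (hD : IsPGroup p D) (h1 : F ≤ D) (h2 : F ≠ D) :
    ∃ H : Subgroup G, F ≤ H ∧ H ≤ D ∧ H.relIndex D = p := by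
  have : Fact p.Prime := ⟨hp⟩
  obtain ⟨k, hk⟩ := IsPGroup.iff_card.mp hD
  have hF : IsPGroup p (F.subgroupOf D) := hD.to_subgroup _
  obtain ⟨n, hn⟩ := IsPGroup.iff_card.mp hF
  have hlt : n < k := by
    by_contra hnk
    push Not at hnk
    have h3 : Nat.card D ≤ Nat.card (F.subgroupOf D) := by
      rw [hk, hn]
      exact Nat.pow_le_pow_right hp.pos hnk
    have h4 : F.subgroupOf D = ⊤ := Subgroup.eq_top_of_le_card _ h3
    exact h2 (le_antisymm h1 (Subgroup.subgroupOf_eq_top.mp h4))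
  obtain ⟨K, hK, hFK⟩ := Sylow.exists_subgroup_card_pow_prime_le (G := D) (p := p) (m := k - 1)
    (by rw [hk]; exact pow_dvd_pow _ (Nat.sub_le _ _)) (F.subgroupOf D) hn (by omega)
  refine ⟨K.map D.subtype, ?_, ?_, ?_⟩
  · intro x hx
    exact ⟨⟨x, h1 hx⟩, hFK (Subgroup.mem_subgroupOf.mpr hx), rfl⟩
  · rintro _ ⟨x, -, rfl⟩
    exact x.2
  · have h3 : (K.map D.subtype).subgroupOf D = K := by
      ext x
      rw [Subgroup.mem_subgroupOf]
      constructor
      · rintro ⟨y, hy, hyx⟩
        have h4 : y = x := Subtype.ext hyx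
        rw [← h4]
        exact hy
      · intro hx
        exact ⟨x, hx, rfl⟩
    rw [Subgroup.relIndex, h3]
    have h4 := Subgroup.card_mul_index K
    rw [hK, hk] at h4
    have h5 : p ^ k = p ^ (k - 1) * p := by
      rw [← pow_succ]
      congr 1
      omega
    exact Nat.eq_of_mul_eq_mul_left (pow_pos hp.pos _) (h4.trans h5)

theorem BCV : BCV_stmt := by
  classical
  intro p M hp G _ _ D θ _ hD
  have : Fact p.Prime := ⟨hp⟩
  set T := TT M D θ with hT
  let Q := T ⧸ (cz D).subgroupOf T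
  have : Fintype Q := Fintype.ofFinite Q
  have hQ : Fintype.card Q = iI M D θ := by
    have h1 : iI M D θ = (cz D).relIndex T := rfl
    rw [h1, Subgroup.relIndex, Subgroup.index, Nat.card_eq_fintype_card]
  let F : Q → Subgroup G := fun q => D ⊓ Subgroup.centralizer {((Quotient.out q : T) : G)}
  have hF : ∀ q : Q, q ≠ ((1 : T) : Q) → ∃ H : Subgroup G, F q ≤ H ∧ H ≤ D ∧ H.relIndex D = p := by
    intro q hq
    have h1 : F q ≤ D := inf_le_left
    have h2 : F q ≠ D := by
      intro h0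
      apply hq
      have h3 : ((Quotient.out q : T) : G) ∈ cz D := by
        show ((Quotient.out q : T) : G) ∈ Subgroup.centralizer (D : Set G)
        rw [Subgroup.mem_centralizer_iff]
        intro d hd
        have h4 : d ∈ F q := by rw [h0]; exact hd
        have h5 := (Subgroup.mem_centralizer_iff.mp h4.2) _ (Set.mem_singleton _)
        exact h5.symm
      have h6 : ((Quotient.out q : T) : Q) = q := Quotient.out_eq q
      rw [← h6, QuotientGroup.eq]
      show ((Quotient.out q : T)⁻¹ * 1) ∈ (cz D).subgroupOf T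
      rw [mul_one]
      exact Subgroup.inv_mem _ (Subgroup.mem_subgroupOf.mpr h3)
    exact BCV_ex p hp D (F q) hD h1 h2
  choose! H hH using hF
  refine ⟨(Finset.univ.erase ((1 : T) : Q)).image H, ?_, ?_, ?_⟩
  · intro K hK
    obtain ⟨q, hq, rfl⟩ := Finset.mem_image.mp hK
    exact (hH q (Finset.ne_of_mem_erase hq)).2
  · intro u hu hnu
    have h1 : ∃ t ∈ T, t * u = u * t ∧ t ∉ cz D := by
      by_contra hcon
      push Not at hcon
      exact hnu ⟨hu, hcon⟩
    obtain ⟨t, ht, htu, htc⟩ := h1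
    have h2 : (((⟨t, ht⟩ : T) : Q)) ≠ ((1 : T) : Q) := by
      intro h0
      rw [QuotientGroup.eq] at h0
      have h3 : (⟨t, ht⟩ : T)⁻¹ ∈ (cz D).subgroupOf T := by simpa using h0
      have h4 := Subgroup.mem_subgroupOf.mp (Subgroup.inv_mem _ h3)
      exact htc (by simpa using h4)
    refine ⟨H ((⟨t, ht⟩ : T) : Q), Finset.mem_image_of_mem _ (Finset.mem_erase.mpr ⟨h2, Finset.mem_univ _⟩), ?_⟩
    refine (hH _ h2).1 ⟨hu, ?_⟩
    show u ∈ Subgroup.centralizer {((Quotient.out (((⟨t, ht⟩ : T) : Q)) : T) : G)}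
    rw [Subgroup.mem_centralizer_iff]
    intro s hs
    rw [Set.mem_singleton_iff] at hs
    rw [hs]
    set o : T := Quotient.out (((⟨t, ht⟩ : T) : Q)) with ho
    have h5 : ((o : T) : Q) = ((⟨t, ht⟩ : T) : Q) := Quotient.out_eq _
    rw [QuotientGroup.eq] at h5
    have h6 : (o : G)⁻¹ * t ∈ cz D := h5
    have h7 : u * ((o : G)⁻¹ * t) = ((o : G)⁻¹ * t) * u := by
      have : (o : G)⁻¹ * t ∈ Subgroup.centralizer (D : Set G) := h6
      exact (Subgroup.mem_centralizer_iff.mp this) u hu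
    have h8 : (o : G) * u * ((o : G)⁻¹ * t) = u * (o : G) * ((o : G)⁻¹ * t) := by
      rw [mul_assoc, h7]
      simp only [mul_assoc, mul_inv_cancel_left]
      exact htu
    exact mul_right_cancel h8
  · have h1 : ((Finset.univ.erase ((1 : T) : Q)).image H).card ≤ (Finset.univ.erase ((1 : T) : Q)).card :=
      Finset.card_image_le
    rw [Finset.card_erase_of_mem (Finset.mem_univ _), Finset.card_univ, hQ] at h1
    have h2 : 0 < iI M D θ := by
      rw [← hQ]
      exact Fintype.card_pos_iff.mpr ⟨((1 : T) : Q)⟩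
    omega

end Pool.Agent.FI4B
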